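import Pool.Agent.Helper47.EX.Defs

/-!
# EX-7: the lower bound for `SOK` from the block inequalities
-/

set_option autoImplicit false

namespace Pool.Agent.Helper41.EX

open Pool.Agent.Helper36.DC Pool.Agent.Helper47.EX Finset

/-- The inputs of the lower bound (EX-1, EX-3, EX-5). -/
structure LowerDep : Prop where
  equi : ∀ (m : ℕ), 1 ≤ m → ∀ (f : ℝ → ℝ), ContinuousOn f (Set.Icc (1 / 3) 1) →
    (∀ θ ∈ Set.Icc (1 / 3 : ℝ) 1, 0 ≤ f θ) → ∀ (ε : ℝ), 0 < ε →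
    ∃ n0 : ℕ, ∀ n : ℕ, n0 ≤ n →
      ∑ i ∈ range n, f (th (i * m)) ≤ n * (30 * (∫ θ in (1 / 3 : ℝ)..1, f θ) + ε)
  EE_cont : ∀ (p q : ℕ → ℝ), Par p → Par q → ∀ (m w : ℕ),
    ContinuousOn (EE p q m w) (Set.Icc (1 / 3) 1)
  TT_cont : ∀ (p q : ℕ → ℝ), Par p → Par q → ∀ (m w j L : ℕ),
    ContinuousOn (TT p q m w j L) (Set.Icc (1 / 3) 1)
  EE_nonneg : ∀ (p q : ℕ → ℝ), Par p → Par q → ∀ (m w : ℕ) (θ : ℝ), 0 ≤ EE p q m w θ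
  TT_nonneg : ∀ (p q : ℕ → ℝ), Par p → Par q → ∀ (m w j L : ℕ) (θ : ℝ), 0 ≤ TT p q m w j L θ
  avg_EE : ∃ C : ℝ, 1 ≤ C ∧ ∀ (p q : ℕ → ℝ), Par p → Par q → ∀ m w : ℕ,
    2 ^ m ≤ 3 ^ (w + 1) → ∫ θ in (1 / 3 : ℝ)..1, EE p q m w θ ≤ C
  avg_TT : ∃ C : ℝ, 1 ≤ C ∧ ∀ (p q : ℕ → ℝ), Par p → Par q → ∀ m w j L : ℕ,
    2 ^ m ≤ 3 ^ (w + 1) → j ≤ m → 1 ≤ L →
      ∫ θ in (1 / 3 : ℝ)..1, TT p q m w j L θ ≤ C * (0.993 ^ j + L * 0.993 ^ m)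
  block_lower : ∀ (x : ℝ), 1 ≤ x → x ≤ 13 / 10 → ∀ (g h a b m w j w0 L : ℕ) (E0 : ℝ),
    3 ^ (h + b) ≤ 2 ^ (g + a) → 2 ^ (g + a) < 3 ^ (h + b + 1) →
    3 ^ (h + b + w) ≤ 2 ^ (g + a + m) → 2 ^ (g + a + m) < 3 ^ (h + b + w + 1) →
    j ≤ m → w0 ≤ w → 2 ^ j ≤ 3 ^ w0 → 3 ^ w0 < 3 * 2 ^ j →
    3 ≤ w0 → 6 ≤ m →
    TT (mix x m j) (mix x w w0) m w j L ((3 : ℝ) ^ (h + b) / 2 ^ (g + a)) ≤ 1 / 280 →
    EE (mix x m j) (mix x w w0) m w ((3 : ℝ) ^ (h + b) / 2 ^ (g + a)) ≤ E0 →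
    1 ≤ E0 → 10000 * E0 ≤ L →
    ∀ (B : ℝ), 0 ≤ B →
    (∀ Y Z, OK (g + a) (h + b) Y Z → B ≤ SOK x g h a b Y Z) → ∀ (Y Z : ℕ),
    OK (g + a + m) (h + b + w) Y Z →
    (1 / (280 * L)) * ((2 / (1 + x)) ^ j * (3 / (x ^ 2 * (1 + x⁻¹ + x⁻¹ ^ 2))) ^ w0)
        * ((1 + x) ^ m * (1 + x⁻¹ + x⁻¹ ^ 2) ^ w / 2 ^ m) * B
      ≤ SOK x g h (a + m) (b + w) Y Z
  block_bad : ∀ (x : ℝ), 1 ≤ x → ∀ (g h a b m w : ℕ),
    3 ^ (h + b) ≤ 2 ^ (g + a) → 2 ^ (g + a) < 3 ^ (h + b + 1) →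
    3 ^ (h + b + w) ≤ 2 ^ (g + a + m) → 2 ^ (g + a + m) < 3 ^ (h + b + w + 1) →
    4 ≤ m → ∀ (B : ℝ), 0 ≤ B →
    (∀ Y Z, OK (g + a) (h + b) Y Z → B ≤ SOK x g h a b Y Z) → ∀ (Y Z : ℕ),
    OK (g + a + m) (h + b + w) Y Z →
    (1 / x ^ (2 * w)) * B ≤ SOK x g h (a + m) (b + w) Y Z

theorem hh_le (g : ℕ) : 3 ^ hh g ≤ 2 ^ g := Nat.pow_log_le_self 3 (by positivity)

theorem lt_hh (g : ℕ) : 2 ^ g < 3 ^ (hh g + 1) := Nat.lt_pow_succ_log_self (by norm_num) _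

theorem hh_mono {a b : ℕ} (h : a ≤ b) : hh a ≤ hh b :=
  Nat.log_mono_right (Nat.pow_le_pow_right (by norm_num) h)

theorem pow3_lt {a b : ℕ} (h : 3 ^ a < 3 ^ b) : a < b :=
  (Nat.pow_lt_pow_iff_right (by norm_num : 1 < 3)).1 h

theorem hh_add_ge (a b : ℕ) : hh a + hh b ≤ hh (a + b) := by
  have h1 : 3 ^ (hh a + hh b) ≤ 2 ^ (a + b) := by
    rw [pow_add, pow_add]; exact Nat.mul_le_mul (hh_le a) (hh_le b)
  have h2 := lt_of_le_of_lt h1 (lt_hh (a + b))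
  have := pow3_lt h2
  omega

theorem hh_add_le (a b : ℕ) : hh (a + b) ≤ hh a + hh b + 1 := by
  have h1 : 2 ^ (a + b) < 3 ^ ((hh a + 1) + (hh b + 1)) := by
    rw [pow_add, pow_add]; exact Nat.mul_lt_mul'' (lt_hh a) (lt_hh b)
  have h2 := lt_of_le_of_lt (hh_le (a + b)) h1
  have := pow3_lt h2
  omega

theorem th_mem' (g : ℕ) : th g ∈ Set.Icc (1 / 3 : ℝ) 1 := by
  have h1 : (3 : ℝ) ^ hh g ≤ 2 ^ g := by exact_mod_cast hh_le g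
  have h2 : (2 : ℝ) ^ g < 3 ^ (hh g + 1) := by exact_mod_cast lt_hh g
  have h0 : (0 : ℝ) < 2 ^ g := by positivity
  unfold th
  constructor
  · rw [div_le_div_iff₀ (by norm_num) h0, pow_succ] at *
    linarith
  · rw [div_le_one h0]; exact h1

theorem mix_par {x : ℝ} (hx : 1 ≤ x) (hx1 : x ≤ 13 / 10) (n j : ℕ) : Par (mix x n j) := by
  intro k
  unfold mix
  split_ifs
  · exact ⟨hx, hx1⟩
  · norm_num

/-- The condition of a good block. -/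
def Good (x : ℝ) (m j w0 L : ℕ) (E0 : ℝ) (i : ℕ) : Prop :=
  TT (mix x m j) (mix x (hh ((i + 1) * m) - hh (i * m)) w0) m
      (hh ((i + 1) * m) - hh (i * m)) j L (th (i * m)) ≤ 1 / 280 ∧
    EE (mix x m j) (mix x (hh ((i + 1) * m) - hh (i * m)) w0) m
      (hh ((i + 1) * m) - hh (i * m)) (th (i * m)) ≤ E0

/-- The constant of a good block. -/
noncomputable def DD (x : ℝ) (j w0 L : ℕ) : ℝ :=
  280 * L * (((1 + x) / 2) ^ j * (x ^ 2 * (1 + x⁻¹ + x⁻¹ ^ 2) / 3) ^ w0)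


theorem Q_ge {x : ℝ} (hx : 1 ≤ x) : 1 ≤ 1 + x⁻¹ + x⁻¹ ^ 2 := by
  have h0 : 0 ≤ x⁻¹ := by positivity
  nlinarith [sq_nonneg x⁻¹]

theorem Q_le {x : ℝ} (hx : 1 ≤ x) : 1 + x⁻¹ + x⁻¹ ^ 2 ≤ 3 := by
  have h0 : 0 ≤ x⁻¹ := by positivity
  have h1 : x⁻¹ ≤ 1 := inv_le_one_of_one_le₀ hx
  nlinarith

theorem DD_ge {x : ℝ} (hx : 1 ≤ x) (j w0 : ℕ) {L : ℕ} (hL : 1 ≤ L) : 1 ≤ DD x j w0 L := by
  have hL' : (1 : ℝ) ≤ L := by exact_mod_cast hL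
  have h1 : (1 : ℝ) ≤ ((1 + x) / 2) ^ j := one_le_pow₀ (by linarith)
  have hQ := Q_ge hx
  have h3 : x ^ 2 * (1 + x⁻¹ + x⁻¹ ^ 2) = x ^ 2 + x + 1 := by
    have : x ≠ 0 := by linarith
    field_simp
  have h2 : (1 : ℝ) ≤ (x ^ 2 * (1 + x⁻¹ + x⁻¹ ^ 2) / 3) ^ w0 := by
    apply one_le_pow₀
    rw [h3]
    nlinarith
  unfold DD
  have h4 : (1 : ℝ) ≤ ((1 + x) / 2) ^ j * (x ^ 2 * (1 + x⁻¹ + x⁻¹ ^ 2) / 3) ^ w0 := by
    nlinarith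
  nlinarith

theorem DD_inv {x : ℝ} (hx : 1 ≤ x) (j w0 L : ℕ) :
    (1 / (280 * (L : ℝ))) * ((2 / (1 + x)) ^ j *
      (3 / (x ^ 2 * (1 + x⁻¹ + x⁻¹ ^ 2))) ^ w0) = (DD x j w0 L)⁻¹ := by
  have h1 : (2 / (1 + x)) ^ j = (((1 + x) / 2) ^ j)⁻¹ := by rw [← inv_pow, inv_div]
  have h2 : (3 / (x ^ 2 * (1 + x⁻¹ + x⁻¹ ^ 2))) ^ w0
      = ((x ^ 2 * (1 + x⁻¹ + x⁻¹ ^ 2) / 3) ^ w0)⁻¹ := by rw [← inv_pow, inv_div]
  unfold DD
  rw [h1, h2, mul_inv (280 * (L : ℝ)), mul_inv (((1 + x) / 2) ^ j), one_div]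

theorem SOK_zero (x : ℝ) (g h Y Z : ℕ) (hOK : OK g h Y Z) : SOK x g h 0 0 Y Z = 1 := by
  unfold SOK
  simp [hOK, s]

/-- The factor of a block. -/
noncomputable def FF (x : ℝ) (m w : ℕ) : ℝ := (1 + x) ^ m * (1 + x⁻¹ + x⁻¹ ^ 2) ^ w / 2 ^ m

theorem FF_pos {x : ℝ} (hx : 1 ≤ x) (m w : ℕ) : 0 < FF x m w := by
  unfold FF
  have hQ := Q_ge hx
  positivity

theorem FF_mul (x : ℝ) (a b m w : ℕ) : FF x (a + m) (b + w) = FF x m w * FF x a b := by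
  unfold FF
  rw [pow_add, pow_add, pow_add]
  field_simp

theorem bad_factor {x : ℝ} (hx : 1 ≤ x) (hx1 : x ≤ 13 / 10) {m w : ℕ} (hw : w ≤ m) :
    FF x m w * x ^ (2 * w) ≤ 8 ^ m := by
  unfold FF
  have hQ := Q_ge hx
  have hQ3 := Q_le hx
  have h1 : (1 + x⁻¹ + x⁻¹ ^ 2) ^ w ≤ (3 : ℝ) ^ m :=
    (pow_le_pow_left₀ (by linarith) hQ3 w).trans (pow_le_pow_right₀ (by norm_num) hw)
  have h2 : x ^ (2 * w) ≤ (169 / 100 : ℝ) ^ m := by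
    rw [pow_mul]
    have h3 : x ^ 2 ≤ 169 / 100 := by nlinarith
    have h4 : 1 ≤ x ^ 2 := by nlinarith
    exact (pow_le_pow_right₀ h4 hw).trans (pow_le_pow_left₀ (by positivity) h3 m)
  have h5 : ((1 + x) / 2) ^ m ≤ (23 / 20 : ℝ) ^ m :=
    pow_le_pow_left₀ (by linarith) (by linarith) m
  calc (1 + x) ^ m * (1 + x⁻¹ + x⁻¹ ^ 2) ^ w / 2 ^ m * x ^ (2 * w)
      = ((1 + x) / 2) ^ m * (1 + x⁻¹ + x⁻¹ ^ 2) ^ w * x ^ (2 * w) := by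
        rw [div_pow]; ring
    _ ≤ (23 / 20 : ℝ) ^ m * 3 ^ m * (169 / 100) ^ m := by
        gcongr
    _ = (23 / 20 * 3 * (169 / 100) : ℝ) ^ m := by rw [mul_pow, mul_pow]
    _ ≤ 8 ^ m := pow_le_pow_left₀ (by norm_num) (by norm_num) m

/-- The induction over the blocks. -/
theorem lower_induct (W : LowerDep) {x : ℝ} (hx : 1 ≤ x) (hx1 : x ≤ 13 / 10)
    {m j w0 L : ℕ} {E0 : ℝ} (hj : j ≤ m) (hw0 : w0 ≤ hh m) (h5 : 2 ^ j ≤ 3 ^ w0)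
    (h6 : 3 ^ w0 < 3 * 2 ^ j) (h7 : 3 ≤ w0) (hm : 6 ≤ m) (hE0 : 1 ≤ E0) (hL : 10000 * E0 ≤ L)
    (bd : ℕ → ℕ) (hbd : ∀ i, (Good x m j w0 L E0 i ∧ bd i = 0) ∨ bd i = 1) (n1 : ℕ) :
    ∀ i, n1 ≤ i → ∀ Y Z, OK (i * m) (hh (i * m)) Y Z →
      (DD x j w0 L ^ (i - n1))⁻¹ * ((8 ^ m) ^ (∑ k ∈ Ico n1 i, bd k))⁻¹ *
        FF x ((i - n1) * m) (hh (i * m) - hh (n1 * m))
      ≤ SOK x (n1 * m) (hh (n1 * m)) ((i - n1) * m) (hh (i * m) - hh (n1 * m)) Y Z := by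
  have hL1 : 1 ≤ L := by
    have : (1 : ℝ) ≤ L := by linarith
    exact_mod_cast this
  have hD := DD_ge hx j w0 hL1
  have hD0 : 0 < DD x j w0 L := by linarith
  intro i hi
  induction i, hi using Nat.le_induction with
  | base =>
    intro Y Z hOK
    simp only [Nat.sub_self, Nat.zero_mul, Finset.Ico_self, Finset.sum_empty, pow_zero, inv_one,
      one_mul]
    rw [SOK_zero _ _ _ _ _ hOK]
    simp [FF]
  | succ i hi ih =>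
    intro Y Z hOK
    obtain ⟨a, ha⟩ : ∃ a, a = (i - n1) * m := ⟨_, rfl⟩
    obtain ⟨b, hb⟩ : ∃ b, b = hh (i * m) - hh (n1 * m) := ⟨_, rfl⟩
    obtain ⟨w, hw⟩ : ∃ w, w = hh ((i + 1) * m) - hh (i * m) := ⟨_, rfl⟩
    have hmono1 : hh (n1 * m) ≤ hh (i * m) := hh_mono (Nat.mul_le_mul_right m hi)
    have hmono2 : hh (i * m) ≤ hh ((i + 1) * m) := hh_mono (Nat.mul_le_mul_right m (by omega))
    have ega : n1 * m + a = i * m := by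
      rw [ha, ← Nat.add_mul]; congr 1; omega
    have ehb : hh (n1 * m) + b = hh (i * m) := by omega
    have egam : n1 * m + a + m = (i + 1) * m := by rw [ega]; ring
    have ehbw : hh (n1 * m) + b + w = hh ((i + 1) * m) := by omega
    have ea : (i + 1 - n1) * m = a + m := by
      rw [ha, ← Nat.succ_mul]; congr 1; omega
    have eb : hh ((i + 1) * m) - hh (n1 * m) = b + w := by omega
    have eim : (i + 1) * m = i * m + m := by ring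
    have hwlo : hh m ≤ w := by
      have := hh_add_ge (i * m) m
      rw [← eim] at this; omega
    have hwhi : w ≤ hh m + 1 := by
      have := hh_add_le (i * m) m
      rw [← eim] at this; omega
    have hhm : hh m + 1 ≤ m := by
      have h1 : 3 ^ hh m ≤ 2 ^ m := hh_le m
      have h2 : 2 ^ m < 3 ^ m := Nat.pow_lt_pow_left (by norm_num) (by omega)
      have := pow3_lt (lt_of_le_of_lt h1 h2)
      omega
    have H1 : 3 ^ (hh (n1 * m) + b) ≤ 2 ^ (n1 * m + a) := by rw [ega, ehb]; exact hh_le _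
    have H2 : 2 ^ (n1 * m + a) < 3 ^ (hh (n1 * m) + b + 1) := by rw [ega, ehb]; exact lt_hh _
    have H3 : 3 ^ (hh (n1 * m) + b + w) ≤ 2 ^ (n1 * m + a + m) := by
      rw [egam, ehbw]; exact hh_le _
    have H4 : 2 ^ (n1 * m + a + m) < 3 ^ (hh (n1 * m) + b + w + 1) := by
      rw [egam, ehbw]; exact lt_hh _
    set B : ℝ := (DD x j w0 L ^ (i - n1))⁻¹ * ((8 ^ m) ^ (∑ k ∈ Ico n1 i, bd k))⁻¹ *
        FF x a b with hB
    have hF0 := FF_pos hx a b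
    have hB0 : 0 ≤ B := by rw [hB]; positivity
    have hih : ∀ Y Z, OK (n1 * m + a) (hh (n1 * m) + b) Y Z →
        B ≤ SOK x (n1 * m) (hh (n1 * m)) a b Y Z := by
      intro Y Z h
      rw [ega, ehb] at h
      have := ih Y Z h
      rw [← ha, ← hb] at this
      exact this
    have hOK' : OK (n1 * m + a + m) (hh (n1 * m) + b + w) Y Z := by
      rw [egam, ehbw]; exact hOK
    rw [ea, eb, Finset.sum_Ico_succ_top hi, FF_mul]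
    have ei : i + 1 - n1 = (i - n1) + 1 := by omega
    have hF := FF_pos hx m w
    rcases hbd i with ⟨hg, hbd0⟩ | hbd1
    · have key := W.block_lower x hx hx1 (n1 * m) (hh (n1 * m)) a b m w j w0 L E0 H1 H2 H3 H4 hj
        (hw0.trans hwlo) h5 h6 h7 hm
        (by
          rw [ega, ehb]
          have := hg.1
          rw [← hw] at this
          exact this)
        (by
          rw [ega, ehb]
          have := hg.2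
          rw [← hw] at this
          exact this) hE0 hL B hB0 hih Y Z hOK'
      refine le_trans (le_of_eq ?_) key
      rw [DD_inv hx, hbd0, Nat.add_zero, ei, pow_succ, mul_inv, hB]
      unfold FF
      ring
    · have key := W.block_bad x hx (n1 * m) (hh (n1 * m)) a b m w H1 H2 H3 H4 (by omega) B hB0
        hih Y Z hOK'
      refine le_trans ?_ key
      rw [hbd1, ei, pow_succ, pow_succ, mul_inv, mul_inv]
      have hx2 : (0 : ℝ) < x ^ (2 * w) := by positivity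
      have hbf := bad_factor hx hx1 (hwhi.trans hhm)
      have h8 : (0 : ℝ) < 8 ^ m := by positivity
      have h1 : ((8 : ℝ) ^ m)⁻¹ * FF x m w ≤ 1 / x ^ (2 * w) := by
        rw [inv_mul_eq_div, div_le_div_iff₀ h8 hx2]
        linarith
      have h2 : (DD x j w0 L)⁻¹ * (((8 : ℝ) ^ m)⁻¹ * FF x m w) ≤ 1 / x ^ (2 * w) := by
        have h3 : (DD x j w0 L)⁻¹ ≤ 1 := inv_le_one_of_one_le₀ hD
        have h4 : 0 ≤ ((8 : ℝ) ^ m)⁻¹ * FF x m w := by positivity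
        calc (DD x j w0 L)⁻¹ * (((8 : ℝ) ^ m)⁻¹ * FF x m w)
            ≤ 1 * (((8 : ℝ) ^ m)⁻¹ * FF x m w) := mul_le_mul_of_nonneg_right h3 h4
          _ ≤ _ := by rw [one_mul]; exact h1
      calc _ = ((DD x j w0 L)⁻¹ * (((8 : ℝ) ^ m)⁻¹ * FF x m w)) * B := by rw [hB]; ring
        _ ≤ _ := mul_le_mul_of_nonneg_right h2 hB0

end Pool.Agent.Helper41.EX
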