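import Pool.Agent.Helper41.EX.LowerCore

/-!
# EX-7: the number of bad blocks and the final inequality
-/

set_option autoImplicit false

namespace Pool.Agent.Helper41.EX

open Pool.Agent.Helper36.DC Pool.Agent.Helper47.EX Finset

/-- The test function which counts the bad blocks. -/
noncomputable def gg (x : ℝ) (m j w0 L : ℕ) (E0 : ℝ) (w : ℕ) (θ : ℝ) : ℝ :=
  280 * TT (mix x m j) (mix x w w0) m w j L θ + EE (mix x m j) (mix x w w0) m w θ / E0

theorem gg_nonneg (W : LowerDep) {x : ℝ} (hx : 1 ≤ x) (hx1 : x ≤ 13 / 10) (m j w0 L : ℕ)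
    {E0 : ℝ} (hE0 : 1 ≤ E0) (w : ℕ) (θ : ℝ) : 0 ≤ gg x m j w0 L E0 w θ := by
  have h1 := W.TT_nonneg (mix x m j) (mix x w w0) (mix_par hx hx1 _ _) (mix_par hx hx1 _ _)
    m w j L θ
  have h2 := W.EE_nonneg (mix x m j) (mix x w w0) (mix_par hx hx1 _ _) (mix_par hx hx1 _ _)
    m w θ
  unfold gg
  positivity

theorem gg_cont (W : LowerDep) {x : ℝ} (hx : 1 ≤ x) (hx1 : x ≤ 13 / 10) (m j w0 L : ℕ)
    (E0 : ℝ) (w : ℕ) : ContinuousOn (gg x m j w0 L E0 w) (Set.Icc (1 / 3) 1) := by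
  have h1 := W.TT_cont (mix x m j) (mix x w w0) (mix_par hx hx1 _ _) (mix_par hx hx1 _ _)
    m w j L
  have h2 := W.EE_cont (mix x m j) (mix x w w0) (mix_par hx hx1 _ _) (mix_par hx hx1 _ _)
    m w
  unfold gg
  exact (continuousOn_const.mul h1).add (h2.div_const E0)

theorem gg_int (W : LowerDep) {x : ℝ} (hx : 1 ≤ x) (hx1 : x ≤ 13 / 10) {m j w0 L : ℕ}
    {E0 CT CE : ℝ} (hE0 : 1 ≤ E0) {w : ℕ} (hw : 2 ^ m ≤ 3 ^ (w + 1)) (hj : j ≤ m) (hL : 1 ≤ L)
    (hCT : ∀ (p q : ℕ → ℝ), Par p → Par q → ∀ m w j L : ℕ,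
      2 ^ m ≤ 3 ^ (w + 1) → j ≤ m → 1 ≤ L →
      ∫ θ in (1 / 3 : ℝ)..1, TT p q m w j L θ ≤ CT * (0.993 ^ j + L * 0.993 ^ m))
    (hCE : ∀ (p q : ℕ → ℝ), Par p → Par q → ∀ m w : ℕ,
      2 ^ m ≤ 3 ^ (w + 1) → ∫ θ in (1 / 3 : ℝ)..1, EE p q m w θ ≤ CE) :
    ∫ θ in (1 / 3 : ℝ)..1, gg x m j w0 L E0 w θ
      ≤ 280 * (CT * (0.993 ^ j + L * 0.993 ^ m)) + CE / E0 := by
  have hp := mix_par hx hx1 m j
  have hq := mix_par hx hx1 w w0
  have h13 : (1 / 3 : ℝ) ≤ 1 := by norm_num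
  have i1 : IntervalIntegrable (fun θ => 280 * TT (mix x m j) (mix x w w0) m w j L θ)
      MeasureTheory.volume (1 / 3) 1 := by
    apply ContinuousOn.intervalIntegrable
    rw [Set.uIcc_of_le h13]
    exact continuousOn_const.mul (W.TT_cont _ _ hp hq m w j L)
  have i2 : IntervalIntegrable (fun θ => EE (mix x m j) (mix x w w0) m w θ / E0)
      MeasureTheory.volume (1 / 3) 1 := by
    apply ContinuousOn.intervalIntegrable
    rw [Set.uIcc_of_le h13]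
    exact (W.EE_cont _ _ hp hq m w).div_const E0
  have e1 : ∫ θ in (1 / 3 : ℝ)..1, gg x m j w0 L E0 w θ
      = 280 * (∫ θ in (1 / 3 : ℝ)..1, TT (mix x m j) (mix x w w0) m w j L θ)
        + (∫ θ in (1 / 3 : ℝ)..1, EE (mix x m j) (mix x w w0) m w θ) / E0 := by
    unfold gg
    rw [intervalIntegral.integral_add i1 i2, intervalIntegral.integral_const_mul,
      intervalIntegral.integral_div]
  rw [e1]
  have h1 := hCT _ _ hp hq m w j L hw hj hL
  have h2 := hCE _ _ hp hq m w hw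
  have h3 : (∫ θ in (1 / 3 : ℝ)..1, EE (mix x m j) (mix x w w0) m w θ) / E0 ≤ CE / E0 :=
    div_le_div_of_nonneg_right h2 (by linarith)
  linarith

/-- The indicator of a bad block is at most the test function. -/
theorem bad_le (W : LowerDep) {x : ℝ} (hx : 1 ≤ x) (hx1 : x ≤ 13 / 10) {m j w0 L : ℕ}
    {E0 : ℝ} (hE0 : 1 ≤ E0) (i : ℕ) (hb : ¬ Good x m j w0 L E0 i) :
    1 ≤ gg x m j w0 L E0 (hh m) (th (i * m)) + gg x m j w0 L E0 (hh m + 1) (th (i * m)) := by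
  have eim : (i + 1) * m = i * m + m := by ring
  have hwlo : hh m ≤ hh ((i + 1) * m) - hh (i * m) := by
    have := hh_add_ge (i * m) m
    rw [← eim] at this; omega
  have hwhi : hh ((i + 1) * m) - hh (i * m) ≤ hh m + 1 := by
    have := hh_add_le (i * m) m
    rw [← eim] at this; omega
  obtain ⟨w, hw⟩ : ∃ w, w = hh ((i + 1) * m) - hh (i * m) := ⟨_, rfl⟩
  have key : 1 ≤ gg x m j w0 L E0 w (th (i * m)) := by
    unfold Good at hb
    rw [← hw] at hb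
    rw [not_and_or] at hb
    have h1 := W.TT_nonneg (mix x m j) (mix x w w0) (mix_par hx hx1 _ _) (mix_par hx hx1 _ _)
      m w j L (th (i * m))
    have h2 := W.EE_nonneg (mix x m j) (mix x w w0) (mix_par hx hx1 _ _) (mix_par hx hx1 _ _)
      m w (th (i * m))
    have h3 : 0 ≤ EE (mix x m j) (mix x w w0) m w (th (i * m)) / E0 := by positivity
    unfold gg
    rcases hb with hb | hb
    · rw [not_le] at hb
      linarith
    · rw [not_le] at hb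
      have h4 : 1 ≤ EE (mix x m j) (mix x w w0) m w (th (i * m)) / E0 := by
        rw [one_le_div (by linarith)]; exact hb.le
      linarith
  have g1 := gg_nonneg W hx hx1 m j w0 L hE0 (hh m) (th (i * m))
  have g2 := gg_nonneg W hx hx1 m j w0 L hE0 (hh m + 1) (th (i * m))
  rcases (show w = hh m ∨ w = hh m + 1 by omega) with h | h
  · rw [h] at key; linarith
  · rw [h] at key; linarith

/-- `2 ^ (M H x) / 3` is at most the product of the block factors. -/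
theorem FF_lower {x : ℝ} (hx : 1 ≤ x) (M b : ℕ)
    (hb : (M : ℝ) * (Real.log 2 / Real.log 3) - 1 ≤ b) :
    (2 : ℝ) ^ ((M : ℝ) * H x) / 3 ≤ FF x M b := by
  have hQ1 := Q_ge hx
  have hQ3 := Q_le hx
  set Q : ℝ := 1 + x⁻¹ + x⁻¹ ^ 2 with hQ
  have hQ0 : 0 < Q := by linarith
  have hP0 : 0 < 1 + x := by linarith
  have l2 : 0 < Real.log 2 := Real.log_pos (by norm_num)
  have l3 : 0 < Real.log 3 := Real.log_pos (by norm_num)
  have e1 : (2 : ℝ) ^ ((M : ℝ) * H x)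
      = (1 + x) ^ M * Q ^ ((M : ℝ) * (Real.log 2 / Real.log 3)) / 2 ^ M := by
    rw [← Real.rpow_natCast (1 + x) M, ← Real.rpow_natCast (2 : ℝ) M,
      Real.rpow_def_of_pos (by norm_num : (0 : ℝ) < 2), Real.rpow_def_of_pos hP0,
      Real.rpow_def_of_pos hQ0, Real.rpow_def_of_pos (by norm_num : (0 : ℝ) < 2),
      ← Real.exp_add, ← Real.exp_sub]
    congr 1
    unfold H
    rw [← hQ]
    field_simp
  have h2 : Q ^ ((M : ℝ) * (Real.log 2 / Real.log 3)) ≤ Q ^ b * 3 := by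
    calc Q ^ ((M : ℝ) * (Real.log 2 / Real.log 3))
        ≤ Q ^ ((b : ℝ) + 1) := Real.rpow_le_rpow_of_exponent_le hQ1 (by linarith)
      _ = Q ^ b * Q := by rw [Real.rpow_add hQ0, Real.rpow_natCast, Real.rpow_one]
      _ ≤ Q ^ b * 3 := mul_le_mul_of_nonneg_left hQ3 (by positivity)
  rw [e1]
  unfold FF
  rw [← hQ, div_div, div_le_div_iff₀ (by positivity) (by positivity)]
  have h3 : (1 + x) ^ M * Q ^ ((M : ℝ) * (Real.log 2 / Real.log 3)) * 2 ^ M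
      ≤ (1 + x) ^ M * (Q ^ b * 3) * 2 ^ M := by
    gcongr
  calc _ ≤ _ := h3
    _ = _ := by ring

theorem hh_real_le (g : ℕ) : (hh g : ℝ) ≤ g * (Real.log 2 / Real.log 3) := by
  have l3 : 0 < Real.log 3 := Real.log_pos (by norm_num)
  have h : ((3 : ℝ) ^ hh g) ≤ 2 ^ g := by exact_mod_cast hh_le g
  have h2 := Real.log_le_log (by positivity) h
  rw [Real.log_pow, Real.log_pow] at h2
  rw [mul_div_assoc', le_div_iff₀ l3]
  exact h2

theorem hh_real_ge (g : ℕ) : g * (Real.log 2 / Real.log 3) < hh g + 1 := by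
  have l3 : 0 < Real.log 3 := Real.log_pos (by norm_num)
  have h : (2 : ℝ) ^ g < 3 ^ (hh g + 1) := by exact_mod_cast lt_hh g
  have h2 := Real.log_lt_log (by positivity) h
  rw [Real.log_pow, Real.log_pow] at h2
  rw [mul_div_assoc', div_lt_iff₀ l3]
  push_cast at h2
  exact h2

/-- The final inequality. -/
theorem fin_ineq {x ε : ℝ} (hx : 1 ≤ x) (hε : 0 < ε) {D : ℝ} (hD : 1 ≤ D) {m n n1 N : ℕ}
    (hn1 : n1 ≤ n) (hDm : D ≤ (2 : ℝ) ^ (ε * m / 4)) (hN : (N : ℝ) ≤ n * (ε / 12))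
    (h3 : (3 : ℝ) ≤ 2 ^ (ε * (n * m) / 2)) :
    (2 : ℝ) ^ ((((n - n1) * m : ℕ) : ℝ) * H x - ε * ((n * m : ℕ) : ℝ)) ≤
      (D ^ (n - n1))⁻¹ * ((8 ^ m) ^ N)⁻¹ *
        FF x ((n - n1) * m) (hh (n * m) - hh (n1 * m)) := by
  have hmono : hh (n1 * m) ≤ hh (n * m) := hh_mono (Nat.mul_le_mul_right m hn1)
  have hb : ((((n - n1) * m : ℕ)) : ℝ) * (Real.log 2 / Real.log 3) - 1
      ≤ ((hh (n * m) - hh (n1 * m) : ℕ) : ℝ) := by
    have a1 := hh_real_le (n1 * m)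
    have a2 := hh_real_ge (n * m)
    rw [Nat.cast_sub hmono]
    push_cast [Nat.cast_sub hn1] at *
    linarith
  have k1 := FF_lower hx _ _ hb
  have hF := FF_pos hx ((n - n1) * m) (hh (n * m) - hh (n1 * m))
  have hD0 : 0 < D := by linarith
  have c1 : D ^ (n - n1) ≤ (2 : ℝ) ^ (ε * (n * m) / 4) := by
    calc D ^ (n - n1) ≤ D ^ n := pow_le_pow_right₀ hD (Nat.sub_le _ _)
      _ ≤ ((2 : ℝ) ^ (ε * m / 4)) ^ n := pow_le_pow_left₀ hD0.le hDm n
      _ = (2 : ℝ) ^ (ε * (n * m) / 4) := by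
        rw [← Real.rpow_natCast, ← Real.rpow_mul (by norm_num)]
        congr 1; ring
  have c2 : ((8 : ℝ) ^ m) ^ N ≤ (2 : ℝ) ^ (ε * (n * m) / 4) := by
    have e8 : ((8 : ℝ) ^ m) ^ N = (2 : ℝ) ^ (3 * m * N : ℝ) := by
      rw [show (8 : ℝ) = 2 ^ (3 : ℕ) by norm_num, ← pow_mul, ← pow_mul, ← Real.rpow_natCast]
      push_cast
      congr 1
      ring
    rw [e8]
    apply Real.rpow_le_rpow_of_exponent_le (by norm_num)
    have hm0 : (0 : ℝ) ≤ m := Nat.cast_nonneg m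
    nlinarith
  have c3 : D ^ (n - n1) * ((8 : ℝ) ^ m) ^ N * 3 ≤ (2 : ℝ) ^ (ε * ((n * m : ℕ) : ℝ)) := by
    calc D ^ (n - n1) * ((8 : ℝ) ^ m) ^ N * 3
        ≤ (2 : ℝ) ^ (ε * (n * m) / 4) * (2 : ℝ) ^ (ε * (n * m) / 4)
          * 2 ^ (ε * (n * m) / 2) := by gcongr
      _ = (2 : ℝ) ^ (ε * ((n * m : ℕ) : ℝ)) := by
        rw [← Real.rpow_add (by norm_num), ← Real.rpow_add (by norm_num)]
        congr 1; push_cast; ring
  rw [Real.rpow_sub (by norm_num), div_le_iff₀ (by positivity)]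
  have hDn : 0 < D ^ (n - n1) * ((8 : ℝ) ^ m) ^ N := by positivity
  have k2 : (2 : ℝ) ^ ((((n - n1) * m : ℕ) : ℝ) * H x)
      ≤ 3 * FF x ((n - n1) * m) (hh (n * m) - hh (n1 * m)) := by
    rw [div_le_iff₀ (by norm_num)] at k1
    linarith
  refine k2.trans ?_
  rw [← mul_inv]
  have k3 : 3 * FF x ((n - n1) * m) (hh (n * m) - hh (n1 * m))
      = (D ^ (n - n1) * ((8 : ℝ) ^ m) ^ N)⁻¹
        * FF x ((n - n1) * m) (hh (n * m) - hh (n1 * m))
        * (D ^ (n - n1) * ((8 : ℝ) ^ m) ^ N * 3) := by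
    field_simp
  rw [k3]
  gcongr

/-- EX-7, from its inputs. -/
theorem lower_of (W : LowerDep) (x : ℝ) (hx : 1 ≤ x) (hx1 : x ≤ 13 / 10) (ε : ℝ) (hε : 0 < ε) :
    ∃ m0 : ℕ, ∀ m : ℕ, m0 ≤ m → ∃ n0 : ℕ, ∀ n : ℕ, n0 ≤ n → ∀ n1 : ℕ, n1 ≤ n →
      ∀ Y Z : ℕ, OK (n * m) (hh (n * m)) Y Z →
        (2 : ℝ) ^ ((((n - n1) * m : ℕ) : ℝ) * H x - ε * ((n * m : ℕ) : ℝ)) ≤
          SOK x (n1 * m) (hh (n1 * m)) ((n - n1) * m) (hh (n * m) - hh (n1 * m)) Y Z := by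
  obtain ⟨CE, hCE1, hCE⟩ := W.avg_EE
  obtain ⟨CT, hCT1, hCT⟩ := W.avg_TT
  obtain ⟨δ, hδ⟩ : ∃ δ, δ = ε / 12 := ⟨_, rfl⟩
  have hδ0 : 0 < δ := by rw [hδ]; positivity
  obtain ⟨E0, hE0⟩ : ∃ E0, E0 = 1 + 240 * CE / δ := ⟨_, rfl⟩
  have hE01 : 1 ≤ E0 := by
    rw [hE0]
    have : 0 ≤ 240 * CE / δ := by positivity
    linarith
  have hCEE : 60 * (CE / E0) ≤ δ / 4 := by
    have h1 : 240 * CE / δ ≤ E0 := by rw [hE0]; linarith
    rw [div_le_iff₀ hδ0] at h1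
    rw [mul_div_assoc', div_le_iff₀ (by linarith)]
    linarith
  obtain ⟨L, hL⟩ := exists_nat_ge (10000 * E0)
  have hL1 : 1 ≤ L := by
    have : (1 : ℝ) ≤ L := by linarith
    exact_mod_cast this
  have hLr : (1 : ℝ) ≤ L := by exact_mod_cast hL1
  -- the number of levels of the coarse scale
  obtain ⟨j1, hj1⟩ := exists_pow_lt_of_lt_one (show 0 < δ / 4 / (16800 * CT) by positivity)
    (show (0.993 : ℝ) < 1 by norm_num)
  obtain ⟨j, hj⟩ : ∃ j, j = max 4 j1 := ⟨_, rfl⟩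
  have hj4 : 4 ≤ j := by omega
  have hjp : 16800 * CT * 0.993 ^ j ≤ δ / 4 := by
    have h1 : (0.993 : ℝ) ^ j ≤ 0.993 ^ j1 :=
      pow_le_pow_of_le_one (by norm_num) (by norm_num) (by omega)
    have h2 := (h1.trans_lt hj1).le
    rw [le_div_iff₀ (by positivity)] at h2
    linarith
  obtain ⟨w0, hw0⟩ : ∃ w0, w0 = hh j + 1 := ⟨_, rfl⟩
  have h5 : 2 ^ j ≤ 3 ^ w0 := by rw [hw0]; exact (lt_hh j).le
  have h6 : 3 ^ w0 < 3 * 2 ^ j := by
    rw [hw0, pow_succ, mul_comm]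
    have h7 : 3 ^ hh j ≠ 2 ^ j := by
      intro h
      have o3 : Odd (3 ^ hh j) := Odd.pow (by decide)
      have e2 : Even (2 ^ j) := (Nat.even_pow.2 ⟨by decide, by omega⟩)
      rw [h] at o3
      exact (Nat.not_even_iff_odd.2 o3) e2
    have h8 := lt_of_le_of_ne (hh_le j) h7
    omega
  have h7 : 3 ≤ w0 := by
    have h8 : 3 ^ 2 < 3 ^ (hh j + 1) := by
      have h9 : 2 ^ 4 ≤ 2 ^ j := Nat.pow_le_pow_right (by norm_num) hj4
      have := lt_hh j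
      omega
    have := pow3_lt h8
    omega
  -- the size of the blocks
  obtain ⟨m1, hm1⟩ := exists_pow_lt_of_lt_one (show 0 < δ / 4 / (16800 * CT * L) by positivity)
    (show (0.993 : ℝ) < 1 by norm_num)
  obtain ⟨m2, hm2⟩ := exists_nat_ge (4 * Real.log (DD x j w0 L) / (ε * Real.log 2))
  have l2 : 0 < Real.log 2 := Real.log_pos (by norm_num)
  refine ⟨max (max m1 m2) (j + 6), fun m hm => ?_⟩
  have hm1' : m1 ≤ m := by omega
  have hm2' : m2 ≤ m := by omega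
  have hjm : j ≤ m := by omega
  have hm6 : 6 ≤ m := by omega
  have hmpos : 1 ≤ m := by omega
  have hw0m : w0 ≤ hh m := by
    have h8 : 3 ^ w0 < 3 ^ (hh m + 1) := by
      have h9 : 2 ^ (j + 2) ≤ 2 ^ m := Nat.pow_le_pow_right (by norm_num) (by omega)
      have h10 := lt_hh m
      rw [pow_add] at h9
      omega
    have := pow3_lt h8
    omega
  have hmp : 16800 * CT * L * 0.993 ^ m ≤ δ / 4 := by
    have h1 : (0.993 : ℝ) ^ m ≤ 0.993 ^ m1 :=
      pow_le_pow_of_le_one (by norm_num) (by norm_num) hm1'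
    have h2 := (h1.trans_lt hm1).le
    rw [le_div_iff₀ (by positivity)] at h2
    linarith
  have hD1 := DD_ge hx j w0 hL1
  have hDm : DD x j w0 L ≤ (2 : ℝ) ^ (ε * m / 4) := by
    have h1 : 4 * Real.log (DD x j w0 L) / (ε * Real.log 2) ≤ m :=
      hm2.trans (by exact_mod_cast hm2')
    rw [div_le_iff₀ (by positivity)] at h1
    rw [← Real.log_le_log_iff (by linarith) (by positivity), Real.log_rpow (by norm_num)]
    nlinarith
  have hw1 : 2 ^ m ≤ 3 ^ (hh m + 1) := (lt_hh m).le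
  have hw2 : 2 ^ m ≤ 3 ^ (hh m + 1 + 1) := hw1.trans (Nat.pow_le_pow_right (by norm_num) (by omega))
  -- equidistribution
  have hint : 30 * (∫ θ in (1 / 3 : ℝ)..1,
      (gg x m j w0 L E0 (hh m) θ + gg x m j w0 L E0 (hh m + 1) θ)) + δ / 4 ≤ δ := by
    have h13 : (1 / 3 : ℝ) ≤ 1 := by norm_num
    have i1 : IntervalIntegrable (gg x m j w0 L E0 (hh m)) MeasureTheory.volume (1 / 3) 1 := by
      apply ContinuousOn.intervalIntegrable
      rw [Set.uIcc_of_le h13]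
      exact gg_cont W hx hx1 m j w0 L E0 _
    have i2 : IntervalIntegrable (gg x m j w0 L E0 (hh m + 1)) MeasureTheory.volume
        (1 / 3) 1 := by
      apply ContinuousOn.intervalIntegrable
      rw [Set.uIcc_of_le h13]
      exact gg_cont W hx hx1 m j w0 L E0 _
    rw [intervalIntegral.integral_add i1 i2]
    have b1 := gg_int (w0 := w0) W hx hx1 hE01 hw1 hjm hL1 hCT hCE
    have b2 := gg_int (w0 := w0) W hx hx1 hE01 hw2 hjm hL1 hCT hCE
    have b3 : 280 * (CT * (0.993 ^ j + L * 0.993 ^ m))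
        = (16800 * CT * 0.993 ^ j + 16800 * CT * L * 0.993 ^ m) / 60 := by ring
    rw [b3] at b1 b2
    linarith
  obtain ⟨n2, hn2⟩ := W.equi m hmpos
    (fun θ => gg x m j w0 L E0 (hh m) θ + gg x m j w0 L E0 (hh m + 1) θ)
    ((gg_cont W hx hx1 m j w0 L E0 _).add (gg_cont W hx hx1 m j w0 L E0 _))
    (fun θ _ => add_nonneg (gg_nonneg W hx hx1 m j w0 L hE01 _ _)
      (gg_nonneg W hx hx1 m j w0 L hE01 _ _)) (δ / 4) (by positivity)
  obtain ⟨n3, hn3⟩ := exists_nat_ge (4 / ε)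
  refine ⟨max n2 n3, fun n hn n1 hn1 Y Z hOK => ?_⟩
  have hn2' : n2 ≤ n := by omega
  have hn3' : n3 ≤ n := by omega
  classical
  let bd : ℕ → ℕ := fun i => if Good x m j w0 L E0 i then 0 else 1
  have hbd : ∀ i, (Good x m j w0 L E0 i ∧ bd i = 0) ∨ bd i = 1 := by
    intro i
    by_cases h : Good x m j w0 L E0 i
    · left; exact ⟨h, by simp [bd, h]⟩
    · right; simp [bd, h]
  have hcount : ((∑ k ∈ Ico n1 n, bd k : ℕ) : ℝ) ≤ n * (ε / 12) := by
    have s1 : ((∑ k ∈ Ico n1 n, bd k : ℕ) : ℝ) ≤ ∑ k ∈ range n, (bd k : ℝ) := by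
      push_cast
      apply Finset.sum_le_sum_of_subset_of_nonneg
      · intro k hk
        rw [Finset.mem_Ico] at hk
        rw [Finset.mem_range]
        exact hk.2
      · intro k _ _; positivity
    have s2 : ∑ k ∈ range n, (bd k : ℝ) ≤ ∑ k ∈ range n,
        (gg x m j w0 L E0 (hh m) (th (k * m)) + gg x m j w0 L E0 (hh m + 1) (th (k * m))) := by
      apply Finset.sum_le_sum
      intro k _
      by_cases h : Good x m j w0 L E0 k
      · simp only [bd, h, if_true, Nat.cast_zero]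
        exact add_nonneg (gg_nonneg W hx hx1 m j w0 L hE01 _ _)
          (gg_nonneg W hx hx1 m j w0 L hE01 _ _)
      · simp only [bd, h, if_false, Nat.cast_one]
        exact bad_le W hx hx1 hE01 k h
    have s3 := hn2 n hn2'
    have hn0 : (0 : ℝ) ≤ n := Nat.cast_nonneg n
    have s4 : (n : ℝ) * (30 * (∫ θ in (1 / 3 : ℝ)..1,
        (gg x m j w0 L E0 (hh m) θ + gg x m j w0 L E0 (hh m + 1) θ)) + δ / 4) ≤ n * δ :=
      mul_le_mul_of_nonneg_left hint hn0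
    rw [← hδ]
    exact s1.trans (s2.trans (s3.trans s4))
  have h3 : (3 : ℝ) ≤ 2 ^ (ε * (n * m) / 2) := by
    have a1 : 4 / ε ≤ n := hn3.trans (by exact_mod_cast hn3')
    rw [div_le_iff₀ hε] at a1
    have a2 : (1 : ℝ) ≤ m := by exact_mod_cast hmpos
    have a3 : (2 : ℝ) ≤ ε * (n * m) / 2 := by nlinarith
    calc (3 : ℝ) ≤ 2 ^ (2 : ℝ) := by norm_num
      _ ≤ 2 ^ (ε * (n * m) / 2) := Real.rpow_le_rpow_of_exponent_le (by norm_num) a3
  have key := lower_induct W hx hx1 hjm hw0m h5 h6 h7 hm6 hE01 hL bd hbd n1 n hn1 Y Z hOK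
  exact (fin_ineq hx hε hD1 hn1 hDm hcount h3).trans key

end Pool.Agent.Helper41.EX
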