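import Pool.Agent.Helper41.EX.LowerFin
import Pool.Agent.Helper33.EX.Average
import Pool.Agent.Helper59.EX.Block
import Pool.Agent.Helper87.EX.Equi

/-!
Project EX, module EX-7 (final form): the lower bound `lower_main`.
-/

set_option autoImplicit false

namespace Pool.Agent.Helper41.EX

open Pool.Agent.Helper36.DC Pool.Agent.Helper47.EX Finset

theorem lowerDep : LowerDep where
  equi m hm f hf hf0 ε hε := Pool.Agent.Helper87.EX.equi m hm f hf hf0 ε hε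
  EE_cont p q hp hq m w := Pool.Agent.Helper33.EX.EE_continuousOn p q hp hq m w
  TT_cont p q hp hq m w j L := Pool.Agent.Helper33.EX.TT_continuousOn p q hp hq m w j L
  EE_nonneg p q hp hq m w θ := Pool.Agent.Helper33.EX.EE_nonneg p q hp hq m w θ
  TT_nonneg p q hp hq m w j L θ := Pool.Agent.Helper33.EX.TT_nonneg p q hp hq m w j L θ
  avg_EE := Pool.Agent.Helper33.EX.avg_EE
  avg_TT := Pool.Agent.Helper33.EX.avg_TT
  block_lower x hx hx1 g h a b m w j w0 L E0 h1 h2 h3 h4 hj hw0 h5 h6 h7 hm hT hE hE0 hL B hB0 hB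
      Y Z hOK :=
    Pool.Agent.Helper59.EX.block_lower x hx hx1 g h a b m w j w0 L E0 h1 h2 h3 h4 hj hw0 h5 h6 h7
      hm hT hE hE0 hL B hB0 hB Y Z hOK
  block_bad x hx g h a b m w h1 h2 h3 h4 hm B hB0 hB Y Z hOK :=
    Pool.Agent.Helper59.EX.block_bad x hx g h a b m w h1 h2 h3 h4 hm B hB0 hB Y Z hOK

theorem lower_main (x : ℝ) (hx : 1 ≤ x) (hx1 : x ≤ 13 / 10) (ε : ℝ) (hε : 0 < ε) :
    ∃ m0 : ℕ, ∀ m : ℕ, m0 ≤ m → ∃ n0 : ℕ, ∀ n : ℕ, n0 ≤ n → ∀ n1 : ℕ, n1 ≤ n →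
      ∀ Y Z : ℕ, OK (n * m) (hh (n * m)) Y Z →
        (2 : ℝ) ^ ((((n - n1) * m : ℕ) : ℝ) * H x - ε * ((n * m : ℕ) : ℝ)) ≤
          SOK x (n1 * m) (hh (n1 * m)) ((n - n1) * m) (hh (n * m) - hh (n1 * m)) Y Z :=
  lower_of lowerDep x hx hx1 ε hε

end Pool.Agent.Helper41.EX
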